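import Mathlib
import Pool.Agent.Lib.MP_5dc4fa_al.Filt
import Pool.Agent.Lib.MP_5dc4fa_al.Unit

/-!
Condition (P) implies commutativity for every ring `R` (not necessarily unital) which contains a
central non-zero-divisor and has a separated descending filtration by two-sided ideals
`R = F 0 ≥ F 1 ≥ F 2 ≥ ...` with `F i * F j ≤ F (i + j)` and torsion-free quotients `R / F i`,
such that no nonzero element of `R` kills `F 1` from the left.
-/

namespace Pool.Agent.Lib.MP_5dc4fa_al.Kept.FilteredCharZero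

open Pool.Agent.Lib.MP_5dc4fa_al

theorem result (R : Type*) [NonUnitalRing R]
    (hP : ∀ x y : R, ∃ n : ℕ, 1 ≤ n ∧
      (fun z : R => z * (x * y))^[n] (x * y) =
        (fun z : R => z * x)^[n] x * (fun z : R => z * y)^[n] y)
    (c : R) (hc : ∀ r : R, c * r = r * c) (hreg : ∀ r : R, c * r = 0 → r = 0)
    (F : ℕ → AddSubgroup R) (hF0 : F 0 = ⊤) (hanti : Antitone F)
    (hmul : ∀ (i j : ℕ) (a b : R), a ∈ F i → b ∈ F j → a * b ∈ F (i + j))
    (hsep : ∀ r : R, (∀ i : ℕ, r ∈ F i) → r = 0)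
    (htf : ∀ (i n : ℕ) (r : R), n ≠ 0 → n • r ∈ F i → r ∈ F i)
    (hann : ∀ r : R, (∀ a ∈ F 1, r * a = 0) → r = 0) :
    ∀ x y : R, x * y = y * x := by
  obtain ⟨U, _, ι, π, hι, hπ⟩ := exists_unital R
  let ι' : R →+ U := (ι : R →+ U)
  have hι' : ∀ r, ι' r = ι r := fun r => rfl
  have hFU : TFFilt (fun i => (F i).map ι') := by
    refine ⟨?_, ?_, ?_⟩
    · intro i j hij
      exact AddSubgroup.map_mono (hanti hij)
    · rintro i j - - _ _ ⟨a, ha, rfl⟩ ⟨b, hb, rfl⟩
      exact ⟨a * b, hmul i j a b ha hb, by simp [hι', map_mul]⟩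
    · rintro i n u hn ⟨r, hr, hru⟩
      have h1 : π u = 0 := by
        have h2 : π (ι r) = 0 := (hπ _).2 ⟨r, rfl⟩
        rw [hι'] at hru
        rw [hru, map_nsmul, nsmul_eq_mul] at h2
        exact (mul_eq_zero.1 h2).resolve_left (by exact_mod_cast hn)
      obtain ⟨s, rfl⟩ := (hπ u).1 h1
      refine ⟨s, htf i n s hn ?_, rfl⟩
      have : r = n • s := hι (by rw [map_nsmul]; exact hru)
      rw [← this]
      exact hr
  have hmem : ∀ (r : R) (i : ℕ), r ∈ F i → ι r ∈ (F i).map ι' := fun r i hr => ⟨r, hr, rfl⟩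
  -- elements of `F 1` commute
  have hcomm : ∀ x ∈ F 1, ∀ y ∈ F 1, x * y = y * x := by
    intro x hx y hy
    have h := hFU.comm_mem (hmem x 1 hx) (hmem y 1 hy)
      (condP_unital ι π hι hπ hP c hc hreg x y)
    refine sub_eq_zero.1 (hsep _ fun i => ?_)
    obtain ⟨r, hr, hr'⟩ := h i
    have : r = x * y - y * x := hι (by
      rw [map_sub, map_mul, map_mul]
      exact hr')
    rw [← this]
    exact hr
  -- elements of `F 1` are central
  have hleft : ∀ (r b : R), b ∈ F 1 → r * b ∈ F 1 := by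
    intro r b hb
    have := hmul 0 1 r b (by rw [hF0]; trivial) hb
    simpa using this
  have hright : ∀ (b r : R), b ∈ F 1 → b * r ∈ F 1 := by
    intro b r hb
    have := hmul 1 0 b r hb (by rw [hF0]; trivial)
    simpa using this
  have hcent : ∀ a ∈ F 1, ∀ r : R, a * r = r * a := by
    intro a ha r
    refine sub_eq_zero.1 (hann _ fun b hb => ?_)
    have h1 : a * (r * b) = (r * b) * a := hcomm a ha (r * b) (hleft r b hb)
    rw [sub_mul, mul_assoc, h1, mul_assoc, hcomm b hb a ha, mul_assoc, sub_self]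
  intro x y
  refine sub_eq_zero.1 (hann _ fun a ha => ?_)
  have h1 : a * x * y = x * (y * a) := by
    rw [hcent a ha x, mul_assoc, hcent a ha y]
  have h2 : a * x * y = y * (x * a) := by
    rw [hcent (a * x) (hright a x ha) y, hcent a ha x]
  rw [sub_mul, mul_assoc, mul_assoc, ← h1, ← h2, sub_self]

end Pool.Agent.Lib.MP_5dc4fa_al.Kept.FilteredCharZero
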