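import Mathlib
import Pool.Agent.Lib.MP_5dc4fa_al.Padic
import Pool.Agent.Lib.MP_5dc4fa_al.Unit

/-!
Condition (P) implies commutativity for every ring `R` (not necessarily unital) which contains a
central non-zero-divisor and which has the following separation property: for every nonzero
`r` in `R` there is a prime `p` such that `R` has no `p`-torsion and `r` is not divisible in `R`
by some power of `p`.
-/

namespace Pool.Agent.Lib.MP_5dc4fa_al.Kept.PadicSeparated

open Pool.Agent.Lib.MP_5dc4fa_al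

theorem result (R : Type*) [NonUnitalRing R]
    (hP : ∀ x y : R, ∃ n : ℕ, 1 ≤ n ∧
      (fun z : R => z * (x * y))^[n] (x * y) =
        (fun z : R => z * x)^[n] x * (fun z : R => z * y)^[n] y)
    (c : R) (hc : ∀ r : R, c * r = r * c) (hreg : ∀ r : R, c * r = 0 → r = 0)
    (hsep : ∀ r : R, r ≠ 0 → ∃ p : ℕ, p.Prime ∧ (∀ s : R, p • s = 0 → s = 0) ∧
      ∃ k : ℕ, ∀ s : R, r ≠ p ^ k • s) :
    ∀ x y : R, x * y = y * x := by
  intro x y
  by_contra hne
  obtain ⟨p, hp, htor, k, hk⟩ := hsep (x * y - y * x) (sub_ne_zero.2 hne)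
  obtain ⟨U, _, ι, π, hι, hπ⟩ := exists_unital R
  have htorU : ∀ w : U, (p : U) * w = 0 → w = 0 := by
    intro w hw
    have h1 : π w = 0 := by
      have h2 := congrArg π hw
      rw [map_mul, map_natCast, map_zero] at h2
      exact (mul_eq_zero.1 h2).resolve_left (by exact_mod_cast hp.ne_zero)
    obtain ⟨r, rfl⟩ := (hπ w).1 h1
    rw [← nsmul_eq_mul, ← map_nsmul] at hw
    have := htor r (hι (by rw [hw, map_zero]))
    rw [this, map_zero]
  have hmul : ∀ r : R, (p : U) ^ 2 * ι r = ι (p ^ 2 • r) := by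
    intro r
    rw [map_nsmul, nsmul_eq_mul]
    push_cast
    rfl
  obtain ⟨t, ht⟩ := commutator_pdvd hp htorU (ι x) (ι y) (by
    rw [hmul, hmul]
    exact condP_unital ι π hι hπ hP c hc hreg _ _) k
  have hxy : ι x * ι y - ι y * ι x = ι (x * y - y * x) := by
    rw [map_sub, map_mul, map_mul]
  rw [hxy] at ht
  have h3 : π t = 0 := by
    have h4 := congrArg π ht
    rw [(hπ _).2 ⟨_, rfl⟩, map_mul, map_pow, map_natCast] at h4
    exact (mul_eq_zero.1 h4.symm).resolve_left (pow_ne_zero _ (by exact_mod_cast hp.ne_zero))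
  obtain ⟨s, rfl⟩ := (hπ t).1 h3
  refine hk s (hι ?_)
  rw [ht, map_nsmul, nsmul_eq_mul]
  push_cast
  rfl

end Pool.Agent.Lib.MP_5dc4fa_al.Kept.PadicSeparated
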