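import Mathlib
import Pool.Agent.Lib.MP_5dc4fa_al.Nilp
import Pool.Agent.Lib.MP_5dc4fa_al.Unit

/-!
A semiprime, additively torsion-free ring with a central non-zero-divisor which satisfies (P) has
no nonzero nilpotent elements.
-/

namespace Pool.Agent.Lib.MP_5dc4fa_al.Kept.SemiprimeReduced

open Pool.Agent.Lib.MP_5dc4fa_al

theorem result (R : Type*) [NonUnitalRing R]
    (hP : ∀ x y : R, ∃ n : ℕ, 1 ≤ n ∧
      (fun z : R => z * (x * y))^[n] (x * y) =
        (fun z : R => z * x)^[n] x * (fun z : R => z * y)^[n] y)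
    (c : R) (hc : ∀ r : R, c * r = r * c) (hreg : ∀ r : R, c * r = 0 → r = 0)
    (htf : ∀ (n : ℕ) (r : R), n ≠ 0 → n • r = 0 → r = 0)
    (hsp : ∀ a : R, (∀ r : R, a * r * a = 0) → a = 0) :
    ∀ x : R, x * x = 0 → x = 0 := by
  obtain ⟨U, _, ι, π, hι, hπ⟩ := exists_unital R
  have hπι : ∀ r, π (ι r) = 0 := fun r => (hπ _).2 ⟨r, rfl⟩
  have htfU : ∀ (n : ℕ) (w : U), n ≠ 0 → n • w = 0 → w = 0 := by
    intro n w hn hw
    have h1 : π w = 0 := by
      have h2 := congrArg π hw
      rw [map_nsmul, nsmul_eq_mul, map_zero] at h2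
      exact (mul_eq_zero.1 h2).resolve_left (by exact_mod_cast hn)
    obtain ⟨r, rfl⟩ := (hπ w).1 h1
    rw [← map_nsmul] at hw
    rw [htf n r hn (hι (by rw [hw, map_zero])), map_zero]
  -- products with square-zero elements are nilpotent
  have hnil : ∀ a r : R, a * a = 0 → ∃ m : ℕ, (ι a * ι r) ^ m = 0 := by
    intro a r ha
    obtain ⟨n, hn, h⟩ := hP a r
    refine ⟨n + 1, ?_⟩
    have h1 := congrArg ι h
    rw [map_mul, ← iota_pow_succ, ← iota_pow_succ, ← iota_pow_succ, map_mul] at h1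
    rw [h1]
    obtain ⟨k, rfl⟩ : ∃ k, n = k + 1 := ⟨n - 1, by omega⟩
    have : ι a ^ (k + 1 + 1) = 0 := by
      rw [pow_succ, pow_succ, mul_assoc, ← map_mul, ha, map_zero, mul_zero]
    rw [this, zero_mul]
  have hcommU : ∀ a b : R, a * a = 0 → b * b = 0 → ι a * ι b = ι b * ι a := by
    intro a b ha hb
    refine commute_of_sq_zero htfU ?_ ?_ (hnil a b ha) (condP_unital ι π hι hπ hP c hc hreg a b)
    · rw [← map_mul, ha, map_zero]
    · rw [← map_mul, hb, map_zero]
  -- `a * q * a = 0` for square-zero `a` and nilpotent `q`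
  have hkey : ∀ a q : R, a * a = 0 → (∃ k : ℕ, (ι q) ^ k = 0) → a * q * a = 0 := by
    rintro a q ha ⟨k, hk⟩
    have haU : ι a * ι a = 0 := by rw [← map_mul, ha, map_zero]
    refine hι ?_
    rw [map_mul, map_mul, map_zero]
    refine aqa_eq_zero htfU haU hk fun t => ?_
    set v : U := ∑ i ∈ Finset.range k, (-(t • ι q)) ^ i with hv
    have hpow : (-(t • ι q)) ^ k = 0 := by
      rw [neg_pow, smul_pow, hk, smul_zero, mul_zero]
    have hvl : v * (1 + t • ι q) = 1 := by
      have := geom_sum_mul (-(t • ι q)) k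
      rw [hpow, ← hv] at this
      have h2 : v * (1 + t • ι q) = -(v * (-(t • ι q) - 1)) := by noncomm_ring
      rw [h2, this]
      simp
    have hπb : π ((1 + t • ι q) * ι a * v) = 0 := by
      rw [map_mul, map_mul, hπι]; simp
    obtain ⟨b, hb⟩ := (hπ _).1 hπb
    have hbb : b * b = 0 := by
      refine hι ?_
      rw [map_mul, map_zero, hb]
      calc (1 + t • ι q) * ι a * v * ((1 + t • ι q) * ι a * v)
          = (1 + t • ι q) * ι a * (v * (1 + t • ι q)) * ι a * v := by simp only [mul_assoc]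
        _ = (1 + t • ι q) * (ι a * ι a) * v := by rw [hvl, mul_one]; simp only [mul_assoc]
        _ = 0 := by rw [haU]; simp
    rw [← hb]
    exact hcommU a b ha hbb
  intro a ha
  -- `a * r * a * s * a = 0` for all `r`, `s`
  have h1 : ∀ r s : R, a * (r * a * s) * a = 0 := by
    intro r s
    refine hkey a (r * a * s) ha ?_
    obtain ⟨m, hm⟩ := hnil a (s * r) ha
    refine ⟨m + 1, ?_⟩
    have : ∀ k : ℕ, (ι (r * a * s)) ^ (k + 1) = ι r * (ι a * ι (s * r)) ^ k * (ι a * ι s) := by
      intro k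
      induction k with
      | zero => simp [map_mul, mul_assoc]
      | succ k ih =>
        rw [pow_succ, ih, pow_succ (ι a * ι (s * r)) k]
        simp only [map_mul, mul_assoc]
    rw [this, hm]
    simp
  refine hsp a fun r => hsp _ fun s => ?_
  have h2 := h1 r s
  calc a * r * a * s * (a * r * a) = a * (r * a * s) * a * (r * a) := by simp only [mul_assoc]
    _ = 0 := by rw [h2, zero_mul]

end Pool.Agent.Lib.MP_5dc4fa_al.Kept.SemiprimeReduced
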